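import Mathlib
import Pool.Agent.TH165.ACC.NFin

/-!
# The ACC for minimal log discrepancies on toric germs, with boundaries that need not be toric

`ToricGerm n K`: an affine toric variety `X` of dimension `n` with function field `K` and with a fixed
point `P`, given by any strictly convex rational cone of dimension `n`; all these cones are allowed at
once. The boundary `B` is an effective `ℝ`-divisor on `X` such that `K_X + B` is `ℝ`-Cartier at `P`. It
need not be torus invariant: it is only assumed that the components of `B` through `P` which meet the
torus are nondegenerate (in the sense of Khovanskii and Kouchnirenko, for the weights in the interior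
of the cone), or that the minimal log discrepancy is the log discrepancy of a monomial valuation. The
minimal log discrepancy is taken over all prime divisors over the germ.

Theorem: for every `n` and every DCC set `Γ` the set of the minimal log discrepancies `m ≥ 0` of these
pairs with coefficients in `Γ` satisfies the ascending chain condition.
-/

set_option autoImplicit false

namespace Pool.Agent.Results.MP_df5e61_ag.ToricGerms

open Pool.Agent.TH165.ACC Pool.Agent.W497.Mld Pool.Agent.H436R3.KT

/-- The minimal log discrepancies `m ≥ 0` of the pairs `(X ∋ P, B)`, where `X ∋ P` is a toric germ of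
dimension `n` and `B` is a boundary with coefficients in `Γ`, not necessarily torus invariant, which is
nondegenerate at `P` or for which `m` is the log discrepancy of a monomial valuation. -/
def toricMlds (n : ℕ) (Γ : Set ℝ) : Set ℝ :=
  {m : ℝ | 0 ≤ m ∧ ∃ (g : ToricGerm n (FractionRing (MvPolynomial (Fin n) ℂ))) (B : EffDiv g.X)
    (e : LocEq B g.P), CoeffIn B Γ ∧ Pool.Agent.W497.Mld.IsMld e m ∧
      (NondegBoundary g B ∨ Computed e m)}

/-- **The ACC for minimal log discrepancies of nondegenerate pairs on toric germs.** -/
theorem result (n : ℕ) (Γ : Set ℝ) (hΓ : Pool.Agent.TH165.ACC.IsDCC Γ) :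
    IsACC (toricMlds n Γ) := by
  intro u hu hmem
  refine geo_acc' (n := n) (K := FractionRing (MvPolynomial (Fin n) ℂ)) hΓ u hu fun k => ?_
  obtain ⟨h0, g, B, e, hB, hm, hc⟩ := hmem k
  exact ⟨h0, g, B, e, hB, hm, hc.symm⟩

end Pool.Agent.Results.MP_df5e61_ag.ToricGerms
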